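import Mathlib

/-!
# Posinomials nonvanishing on a product of half planes: definitions and statements of the tasks
-/

set_option autoImplicit false

namespace Pool.Agent.H44R2.Pos

open Filter Topology Complex

/-- the posinomial `∑ c α x^α` at a complex point (principal powers). -/
noncomputable def posi {n : ℕ} (S : Finset (Fin n → ℝ)) (c : (Fin n → ℝ) → ℝ) (z : Fin n → ℂ) : ℂ :=
  ∑ α ∈ S, (c α : ℂ) * ∏ i, (z i) ^ (α i : ℂ)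

/-- the posinomial at a real point. -/
noncomputable def posiR {n : ℕ} (S : Finset (Fin n → ℝ)) (c : (Fin n → ℝ) → ℝ) (x : Fin n → ℝ) : ℝ :=
  ∑ α ∈ S, c α * ∏ i, (x i) ^ (α i)

/-- the posinomial in logarithmic coordinates. -/
noncomputable def F {n : ℕ} (S : Finset (Fin n → ℝ)) (c : (Fin n → ℝ) → ℝ) (u : Fin n → ℂ) : ℂ :=
  ∑ α ∈ S, (c α : ℂ) * cexp (∑ i, (α i : ℂ) * u i)

/-- the region where the arguments of the coordinates differ by less than `π`. -/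
def cone (n : ℕ) : Set (Fin n → ℂ) := {u | ∀ i j, (u i).im - (u j).im < Real.pi}

/-- T1 (Descartes' rule of signs for exponential sums). -/
def S_T1 : Prop := ∀ (ι : Type) (S : Finset ι) (β a : ι → ℝ) (Λ Z : Finset ℝ),
  (∀ k ∈ S, 0 ≤ a k * ∏ l ∈ Λ, (β k - l)) → (∃ k ∈ S, 0 < a k * ∏ l ∈ Λ, (β k - l)) →
  (∀ x ∈ Z, ∑ k ∈ S, a k * Real.exp (β k * x) = 0) → Z.card ≤ Λ.card

/-- T2 (sign of the sine). -/
def S_T2 : Prop := ∀ s s0 s1 : ℝ, s0 ≤ s → s ≤ s1 →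
  0 ≤ (-1 : ℝ) ^ ⌊s1 / Real.pi⌋ * (Real.sin s *
    ∏ j ∈ Finset.Ioc ⌊s0 / Real.pi⌋ ⌊s1 / Real.pi⌋, (s - j * Real.pi))

/-- T3 (winding). -/
def S_T3 : Prop := ∀ (ι : Type) (S : Finset ι) (β c : ι → ℝ) (A r : ℝ → ℝ) (b0 b1 : ℝ),
  (∀ k ∈ S, 0 < c k) → Continuous A → (∀ x, 0 < r x) →
  (∀ x : ℝ, ∑ k ∈ S, ((c k * Real.exp (β k * x) : ℝ) : ℂ) * cexp (β k * I) = r x * cexp (A x * I)) →
  (∀ k ∈ S, b0 ≤ β k) → (∀ k ∈ S, β k ≤ b1) → (∃ k ∈ S, β k = b1) →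
  Tendsto A atBot (𝓝 b0) → Tendsto A atTop (𝓝 b1) → ∀ x, b0 ≤ A x

/-- T4 (behaviour at infinity). `g` is a continuous logarithm on the strip. -/
def S_T4 : Prop := ∀ (ι : Type) (S : Finset ι) (β c : ι → ℝ) (g : ℝ → ℝ → ℂ) (l : Filter ℝ) (b : ℝ),
  (∀ k ∈ S, 0 < c k) → (∃ k ∈ S, β k = b) →
  (∀ k ∈ S, β k ≠ b → Tendsto (fun x => Real.exp ((β k - b) * x)) l (𝓝 0)) →
  (∀ x, ContinuousOn (g x) (Set.Icc 0 1)) →
  (∀ x, ∀ y ∈ Set.Icc (0 : ℝ) 1, cexp (g x y) = ∑ k ∈ S, (c k : ℂ) * cexp (β k * (x + y * I))) →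
  (∀ x, (g x 0).im = 0) → Tendsto (fun x => (g x 1).im) l (𝓝 b)

/-- T5 (nonvanishing in logarithmic coordinates). -/
def S_T5 : Prop := ∀ (n : ℕ) (S : Finset (Fin n → ℝ)) (c : (Fin n → ℝ) → ℝ) (d : ℝ),
  (∀ α ∈ S, ∑ i, α i = d) → (∀ z : Fin n → ℂ, (∀ i, 0 < (z i).re) → posi S c z ≠ 0) →
  ∀ u ∈ cone n, F S c u ≠ 0

/-- T6 (existence of the logarithm). -/
def S_T6 : Prop := ∀ (n : ℕ) (S : Finset (Fin n → ℝ)) (c : (Fin n → ℝ) → ℝ),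
  (∀ α ∈ S, 0 ≤ c α) → (∀ u ∈ cone n, F S c u ≠ 0) →
  ∃ L : (Fin n → ℂ) → ℂ, ContinuousOn L (cone n) ∧ (∀ u ∈ cone n, cexp (L u) = F S c u) ∧
    (∀ x : Fin n → ℝ, (L (fun i => (x i : ℂ))).im = 0) ∧
    (∀ u ∈ cone n, L (fun i => (starRingEnd ℂ) (u i)) = (starRingEnd ℂ) (L u))

/-- T7 (bound for the argument), from T3 and T4. -/
def S_T7 : Prop := ∀ (n : ℕ) (S : Finset (Fin n → ℝ)) (c : (Fin n → ℝ) → ℝ) (d : ℝ)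
  (L : (Fin n → ℂ) → ℂ), (∀ α ∈ S, ∀ i, 0 ≤ α i) → (∀ α ∈ S, ∑ i, α i = d) → (∀ α ∈ S, 0 ≤ c α) →
  (∀ u ∈ cone n, F S c u ≠ 0) → ContinuousOn L (cone n) → (∀ u ∈ cone n, cexp (L u) = F S c u) →
  (∀ x : Fin n → ℝ, (L (fun i => (x i : ℂ))).im = 0) →
  ∀ u ∈ cone n, ∀ m M : ℝ, (∀ i, m ≤ (u i).im) → (∀ i, (u i).im ≤ M) →
    d * m ≤ (L u).im ∧ (L u).im ≤ d * M

/-- T8 (the argument of a point of a complexified segment). -/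
def S_T8 : Prop := ∀ (p q : ℝ) (t : ℂ), 0 < p → 0 < q → 0 < t.im →
  (1 - t) * p + t * q ∈ slitPlane ∧ arg (1 - t) ≤ arg ((1 - t) * p + t * q) ∧
    arg ((1 - t) * p + t * q) ≤ arg t ∧ arg t - arg (1 - t) < Real.pi

/-- T9 (a continuous logarithm of a holomorphic function is holomorphic). -/
def S_T9 : Prop := ∀ (U : Set ℂ) (g f : ℂ → ℂ), IsOpen U → ContinuousOn g U →
  DifferentiableOn ℂ f U → (∀ t ∈ U, cexp (g t) = f t) → DifferentiableOn ℂ g U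

/-- the plane without the two rays `(-∞, 0]` and `[1, ∞)`. -/
def Om : Set ℂ := {t | t.im ≠ 0 ∨ (0 < t.re ∧ t.re < 1)}

/-- T10 (Phragmen-Lindelof and reflection). -/
def S_T10 : Prop := ∀ (g : ℂ → ℂ) (d : ℝ), DifferentiableOn ℂ g Om → 0 ≤ d →
  (∀ t ∈ Om, g ((starRingEnd ℂ) t) = (starRingEnd ℂ) (g t)) →
  (∀ t : ℂ, 0 < t.im → d * arg (1 - t) ≤ (g t).im ∧ (g t).im ≤ d * arg t) →
  ∀ a : ℝ, 0 < a → a < 1 → ∀ s : ℂ, 0 < s.re → 0 < s.im → (g (a + s) + g (a - s)).im ≤ 0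

/-- T11 (second derivative). -/
def S_T11 : Prop := ∀ (g : ℂ → ℂ), DifferentiableOn ℂ g Om →
  (∀ t ∈ Om, g ((starRingEnd ℂ) t) = (starRingEnd ℂ) (g t)) →
  (∀ a : ℝ, 0 < a → a < 1 → ∀ s : ℂ, 0 < s.re → 0 < s.im → (g (a + s) + g (a - s)).im ≤ 0) →
  ConcaveOn ℝ (Set.Ioo (0 : ℝ) 1) (fun x : ℝ => (g x).re)

/-- T12 (assembly): the theorem. -/
def S_T12 : Prop := ∀ (n : ℕ) (S : Finset (Fin n → ℝ)) (c : (Fin n → ℝ) → ℝ) (d : ℝ),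
  (∀ α ∈ S, ∀ i, 0 ≤ α i) → (∀ α ∈ S, ∑ i, α i = d) → (∀ α ∈ S, 0 ≤ c α) →
  (∀ z : Fin n → ℂ, (∀ i, 0 < (z i).re) → posi S c z ≠ 0) →
  ConcaveOn ℝ {x : Fin n → ℝ | ∀ i, 0 < x i} (fun x => Real.log (posiR S c x))

end Pool.Agent.H44R2.Pos
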